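import Pool.Agent.PureEq.Final

/-!
# MP_e44c77_lc : `𝒦₌` is closed neither under model companions nor under model-complete cores

There are countable structures `A`, `B` in one finite relational (binary) signature such that
`A` has a parameter-free first-order interpretation over `(ℕ;=)`, the theory of `B` is the model
companion of the theory of `A`, and `B` is also the model-complete core of `A`; but `B` has no
first-order interpretation over `(ℕ;=)`, even with finitely many parameters.
So both Q1 and Q2 have a negative answer.
-/

open FirstOrder

namespace Pool.Agent.Results.MP_e44c77_lc.PureEqNotClosed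

open Pool.Agent.PureEq

universe u

theorem result : ∃ (L : FirstOrder.Language.{0, 0}) (A B : Type)
    (_ : L.Structure A) (_ : L.Structure B),
    (∀ n, IsEmpty (L.Functions n)) ∧ Finite (Σ n, L.Relations n) ∧ Countable A ∧ Countable B ∧
    -- `A` is in `𝒦₌`
    InKEq L A ∧
    -- the (theory of the) countable structure `B` is the model companion of `A`
    IsModelCompanion.{u} L (L.completeTheory A) (L.completeTheory B) ∧
    -- `B` is the model-complete core of `A`
    IsModelCompleteCoreOf L A B ∧
    -- `B` is not in `𝒦₌`, not even if parameters are allowed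
    ¬ InKEq L B ∧ ∀ C : Set ℕ, C.Finite → ¬ Interpretable C L B := by
  obtain ⟨f⟩ := emb_AB
  obtain ⟨g⟩ := emb_BA
  refine ⟨Lc, XA.Pt, XB.Pt, inferInstance, inferInstance, fun n => inferInstanceAs (IsEmpty Empty),
    ?_, inferInstance, inferInstance, interpretable_A,
    ⟨modelComplete, fun M _ hM => embeds f M hM, fun M _ hM => embeds g M hM⟩,
    ⟨core_B, ⟨f.toHom⟩, ⟨g.toHom⟩⟩, not_interpretable_B ∅ Set.finite_empty,
    not_interpretable_B⟩
  have : Function.Surjective (fun s : Sym => (⟨2, Rels.r s⟩ : Σ n, Lc.Relations n)) := by
    rintro ⟨_, ⟨s⟩⟩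
    exact ⟨s, rfl⟩
  exact Finite.of_surjective _ this

end Pool.Agent.Results.MP_e44c77_lc.PureEqNotClosed
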